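import Pool.Agent.H255R.HR.Main

/-!
# Surfaces dominated by products of curves
-/

open CategoryTheory AlgebraicGeometry

universe u v w

namespace Pool.Agent.H255R.HR

open Pool.Agent.H914 Pool.Agent.H914.VarClass Pool.Agent.H914.VarClass.Obj Pool.Agent.W492.BB
  Pool.Agent.W550.Corr Pool.Agent.TH133 Pool.Agent.Y148.BB Pool.Agent.H255R.PC

set_option linter.unusedSectionVars false

variable {k : Type u} [Field k] {𝒱 : VarClass k} {C : TheoryData.{u, v, 0} 𝒱 ℚ}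
  {F : Type w} [Field F] {H : WeilTheoryData.{u, v, w} C F}
  {X Y Z S T V W : 𝒱.Obj}

variable [hC : IsChowProj C] [CharZero F] [hH : IsWeilProj H]

include hC hH

lemma Family.sum {𝓝 : Family H} {r : ℕ} {n : ℕ} {t : Fin n → H.A X}
    (h : ∀ j, 𝓝.Mem X r (t j)) : 𝓝.Mem X r (∑ j, t j) := by
  classical
  refine Finset.sum_induction t (fun x => 𝓝.Mem X r x) (fun _ _ => 𝓝.add) (𝓝.zero X r)
    (fun j _ => h j)

/-- Blow-ups. -/
lemma Good.birational {𝓜 𝓝 : Family H} {R : ℕ} {b : Y ⟶ X} (hb : IsBirational H b)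
    (hY : Y.dim = 2) (h1 : Good 𝓜 𝓝 R (Z.prod X)) (h2 : Good 𝓜 𝓝 R Z) :
    Good 𝓜 𝓝 R (Z.prod Y) := by
  obtain ⟨hdim, -, -, n, e, e', hdeg, hid⟩ := hb
  intro r hr t ht
  rw [hid Z t]
  refine 𝓝.add (𝓝.pull _ (h1 r hr _ (𝓜.push _ (by simp only [dim_prod]; omega) ht))) ?_
  refine Family.sum fun j => ?_
  have he : C.Deg ((1 : ℕ) : ℤ) (C.up (snd Z Y) (e j)) :=
    C.pull_mem _ (by exact_mod_cast (hdeg j).1)
  have he' : C.Deg ((1 : ℕ) : ℤ) (C.up (snd Z Y) (e' j)) :=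
    C.pull_mem _ (by exact_mod_cast (hdeg j).2)
  have h3 : 𝓜.Mem (Z.prod Y) (r + 1) (H.mul (H.cl (C.up (snd Z Y) (e j))) t) := 𝓜.mul ht he
  by_cases h4 : Y.dim ≤ r + 1
  · obtain ⟨s, hs⟩ : ∃ s, r + 1 = s + Y.dim := ⟨r + 1 - Y.dim, by omega⟩
    have h5 := h2 s (by omega) _ (𝓜.push (fst Z Y) (s := s) (by rw [dim_prod]; omega) h3)
    have h6 := 𝓝.mul (𝓝.pull (fst Z Y) h5) he'
    have h7 : s + 1 = r := by omega
    rw [h7] at h6
    exact h6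
  · have h5 := H.push_mem (fst Z Y) (𝓜.deg h3)
    rw [H.gr_neg Z _ (by rw [dim_prod]; push_cast; omega)] at h5
    have h6 : H.push (fst Z Y) (H.mul (H.cl (C.up (snd Z Y) (e j))) t) = 0 :=
      (Submodule.mem_bot _).1 h5
    have h7 : H.mul (H.cl (C.up (snd Z Y) (e' j)))
        (H.up (fst Z Y) (H.down (fst Z Y) (H.mul (H.cl (C.up (snd Z Y) (e j))) t))) = 0 := by
      change H.cl _ * H.pull _ (H.push _ _) = 0
      rw [h6, map_zero, mul_zero]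
    have h8 : exc H (e j) (e' j) Z t = 0 := h7
    rw [h8]
    exact 𝓝.zero _ _

/-- Morphisms of finite degree. -/
lemma Good.degree {𝓜 𝓝 : Family H} {R : ℕ} {f : Y ⟶ X} {m : ℚ} (hf : IsOfDegree C f m)
    (hm : m ≠ 0) (h : Good 𝓜 𝓝 R (Z.prod Y)) : Good 𝓜 𝓝 R (Z.prod X) := by
  have hd : IsOfDegree C (prodMap (𝟙 Z) f) m := by
    refine ⟨by simp only [dim_prod]; rw [hf.1], ?_⟩
    have h1 : (1 : C.A (Z.prod Y)) = C.ext 1 1 := by
      rw [TheoryData.ext, map_one, map_one, one_mul]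
    have h2 : (1 : C.A (Z.prod X)) = C.ext 1 1 := by
      rw [TheoryData.ext, map_one, map_one, one_mul]
    have h3 : C.push f 1 = m • (1 : C.A X) := hf.2
    change C.push (prodMap (𝟙 Z) f) 1 = _
    rw [h1, Pool.Agent.TH133.push_ext C, C.push_id, h3, h2, TheoryData.ext, TheoryData.ext,
      map_smul, mul_smul_comm]
  intro r hr t ht
  have h1 := 𝓝.push (prodMap (𝟙 Z) f) (s := r) (by rw [hd.1]) (h r hr _ (𝓜.pull (prodMap (𝟙 Z) f) ht))
  have h2 : H.push (prodMap (𝟙 Z) f) (H.pull (prodMap (𝟙 Z) f) t) = (m : F) • t := push_pullH hd t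
  rw [show H.down (prodMap (𝟙 Z) f) (H.up (prodMap (𝟙 Z) f) t) = (m : F) • t from h2] at h1
  have h3 := 𝓝.smul m⁻¹ h1
  rwa [smul_smul, ← Rat.cast_mul, inv_mul_cancel₀ hm, Rat.cast_one, one_smul] at h3

/-- From products of curves to products of surfaces. -/
theorem conv_app {U : 𝒱.Obj} {𝒞 : 𝒱.Obj → Prop} {𝓜 𝓝 : Family H} {R N : ℕ}
    (h : ∀ n ≤ N, ∀ W : 𝒱.Obj, IsProdOf U 𝒞 n W → Good 𝓜 𝓝 R W) {m : ℕ} {A : 𝒱.Obj}
    (hA : IsProdOf U (IsDominatedSurface H 𝒞) m A) : ∀ (l : List 𝒱.Obj), (∀ S ∈ l, 𝒞 S) →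
      2 * m + l.length ≤ N → Good 𝓜 𝓝 R (app A l) := by
  induction hA with
  | base =>
    intro l hl hn
    have key : ∀ l : List 𝒱.Obj, (∀ S ∈ l, 𝒞 S) → IsProdOf U 𝒞 l.length (app U l) := by
      intro l
      induction l with
      | nil => exact fun _ => .base
      | cons S l ih =>
        intro hl
        exact IsProdOf.prod _ _ _ (ih fun T hT => hl T (List.mem_cons_of_mem _ hT))
          (hl S List.mem_cons_self)
    exact h l.length (by omega) _ (key l hl)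
  | prod m A X _ hX ih =>
    intro l hl hn
    obtain ⟨hX2, V, W, Y, b, f, c, hV, hW, hb, hf, hc⟩ := hX
    refine Good.isom (app_swap A X l) ?_
    refine Good.degree hf hc ?_
    have h1 : Good 𝓜 𝓝 R (((app A l).prod V).prod W) := ih (W :: V :: l)
      (fun U hU => by
        rcases List.mem_cons.1 hU with rfl | hU
        · exact hW
        rcases List.mem_cons.1 hU with rfl | hU
        · exact hV
        exact hl U hU) (by simp; omega)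
    exact Good.birational hb (by rw [hf.1, hX2]) (Good.isom (Isom.assoc _ _ _) h1)
      (ih l hl (by omega))

/-- The main equivalences. -/
theorem tfae {𝓜 𝓝 : Family H} {𝒞 : 𝒱.Obj → Prop} (hG : HasGaloisQuotients H 𝒞) (U : 𝒱.Obj)
    (R M : ℕ) :
    List.TFAE [
      ∀ m ≤ M, ∀ A : 𝒱.Obj, IsProdOf U (IsRegularDominated H 𝒞) m A →
        Good 𝓜 𝓝 R A ∧ ∀ S : 𝒱.Obj, 𝒞 S → Good 𝓜 𝓝 R (A.prod S),
      ∀ m ≤ M, ∀ A : 𝒱.Obj, IsProdOf U (IsDominatedSurface H 𝒞) m A →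
        Good 𝓜 𝓝 R A ∧ ∀ S : 𝒱.Obj, 𝒞 S → Good 𝓜 𝓝 R (A.prod S),
      ∀ n ≤ 2 * M + 1, ∀ W : 𝒱.Obj, IsProdOf U 𝒞 n W → Good 𝓜 𝓝 R W,
      ∀ n ≤ 2 * M + 1, ∀ W X : 𝒱.Obj, IsProdOf U 𝒞 n W → IsDominatedBy C W X →
        Good 𝓜 𝓝 R X] := by
  tfae_have 1 → 3 := fun h => main hG h
  tfae_have 3 → 4 := fun h n hn W X hW hX => (h n hn W hW).dominated hX
  tfae_have 4 → 2 := by
    intro h m hm A hA
    have h1 : ∀ n ≤ 2 * M + 1, ∀ W : 𝒱.Obj, IsProdOf U 𝒞 n W → Good 𝓜 𝓝 R W :=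
      fun n hn W hW => h n hn W W hW ⟨𝟙 W, 0, 1, rfl, C.one_mem W, C.push_id 1⟩
    refine ⟨conv_app h1 hA [] (by simp) (by simp; omega), fun S hS => ?_⟩
    exact conv_app h1 hA [S] (by simpa using hS) (by simp; omega)
  tfae_have 2 → 1 := fun h m hm A hA => h m hm A (hA.mono fun X hX => hX.2)
  tfae_finish

/-- The equivalence if the odd cohomology of `U` vanishes. -/
theorem iff_odd {𝓜 𝓝 : Family H} {𝒞 : 𝒱.Obj → Prop} (hG : HasGaloisQuotients H 𝒞) {U : 𝒱.Obj}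
    (hU : OddVanish H U) (R M : ℕ) :
    (∀ m ≤ M, ∀ A : 𝒱.Obj, IsProdOf U (IsRegularDominated H 𝒞) m A → Good 𝓜 𝓝 R A) ↔
      ∀ n ≤ 2 * M + 1, ∀ W : 𝒱.Obj, IsProdOf U 𝒞 n W → Good 𝓜 𝓝 R W := by
  refine ⟨fun h => main_odd hU hG h, fun h m hm A hA => ?_⟩
  exact conv_app h (hA.mono fun X hX => hX.2) [] (by simp) (by simp; omega)

end Pool.Agent.H255R.HR
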