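import Pool.Agent.H255R.HR.Defs
import Pool.Agent.H255R.PC.Base

/-!
# The odd part of a class with respect to a curve factor
-/

open CategoryTheory AlgebraicGeometry

universe u v w

namespace Pool.Agent.H255R.HR

open Pool.Agent.H914 Pool.Agent.H914.VarClass Pool.Agent.H914.VarClass.Obj Pool.Agent.W492.BB
  Pool.Agent.W550.Corr Pool.Agent.TH133 Pool.Agent.Y148.BB Pool.Agent.H255R.PC

set_option linter.unusedSectionVars false

variable {k : Type u} [Field k] {𝒱 : VarClass k} {C : TheoryData.{u, v, 0} 𝒱 ℚ}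
  {F : Type w} [Field F] {H : WeilTheoryData.{u, v, w} C F}
  {X Y Z S T V W : 𝒱.Obj}

section family

variable [CharZero F] (𝓜 : Family H)

lemma Family.neg {r : ℕ} {t : H.A X} (ht : 𝓜.Mem X r t) : 𝓜.Mem X r (-t) := by
  have h := 𝓜.smul (-1) ht
  rwa [Rat.cast_neg, Rat.cast_one, neg_smul, one_smul] at h

lemma Family.sub {r : ℕ} {s t : H.A X} (hs : 𝓜.Mem X r s) (ht : 𝓜.Mem X r t) :
    𝓜.Mem X r (s - t) := by
  rw [sub_eq_add_neg]
  exact 𝓜.add hs (𝓜.neg ht)

end family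

/-- The classes of the family `𝓜`, in codimensions at most `R`, are in the family `𝓝`. -/
def Good (𝓜 𝓝 : Family H) (R : ℕ) (X : 𝒱.Obj) : Prop :=
  ∀ r ≤ R, ∀ t : H.A X, 𝓜.Mem X r t → 𝓝.Mem X r t

variable [hC : IsChowProj C] [CharZero F] [hH : IsWeilProj H]

include hC hH

omit hC hH in
lemma cl_smul (q : ℚ) (z : C.A X) : H.cl (q • z) = (q : F) • H.cl z := by
  have h : H.cl.comp (algebraMap ℚ (C.A X)) =
      (algebraMap F (H.A X)).comp (algebraMap ℚ F) := RingHom.ext_rat _ _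
  have h1 := RingHom.congr_fun h q
  rw [RingHom.comp_apply, RingHom.comp_apply, eq_ratCast (algebraMap ℚ F) q] at h1
  rw [Algebra.smul_def, Algebra.smul_def, map_mul, h1]

lemma push_pullH {f : Y ⟶ X} {m : ℚ} (hf : IsOfDegree C f m) (a : H.A X) :
    H.push f (H.pull f a) = (m : F) • a := by
  have h := H.proj_right f 1 a
  rw [one_mul] at h
  have h2 : C.push f 1 = m • (1 : C.A X) := hf.2
  have h3 : H.push f 1 = (m : F) • (1 : H.A X) := by
    have h4 := H.cl_push f (1 : C.A Y)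
    rw [h2, cl_smul, map_one, map_one] at h4
    exact h4.symm
  rw [h, h3, smul_mul_assoc, one_mul]

/-- The morphisms `pr : W ⟶ Z` and `s : W ⟶ S` are the projections of a product `W = Z × S` of a
variety `Z` with a curve `S`, in the form of the following properties. -/
structure IsCoord (C : TheoryData.{u, v, 0} 𝒱 ℚ) {W Z S : 𝒱.Obj} (pr : W ⟶ Z) (s : W ⟶ S) :
    Prop where
  dim : W.dim = Z.dim + 1
  curve : S.dim = 1
  push : ∀ o : C.A S, HasDegree C o 1 → C.push pr (C.pull s o) = 1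

/-- The component of a class of degree zero in the curve factor. -/
noncomputable def e0 (pr : W ⟶ Z) (s : W ⟶ S) (o : C.A S) : H.A W →ₗ[F] H.A W :=
  (H.pull pr).toLinearMap ∘ₗ H.push pr ∘ₗ LinearMap.mulLeft F (H.cl (C.pull s o))

/-- The component of a class of degree two in the curve factor. -/
noncomputable def e2 (pr : W ⟶ Z) (s : W ⟶ S) (o : C.A S) : H.A W →ₗ[F] H.A W :=
  LinearMap.mulLeft F (H.cl (C.pull s o)) ∘ₗ (H.pull pr).toLinearMap ∘ₗ H.push pr

/-- The component of a class of degree one in the curve factor. -/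
noncomputable def e1 (pr : W ⟶ Z) (s : W ⟶ S) (o : C.A S) : H.A W →ₗ[F] H.A W :=
  LinearMap.id - e0 pr s o - e2 pr s o

omit hC hH [CharZero F] in
lemma e0_apply (pr : W ⟶ Z) (s : W ⟶ S) (o : C.A S) (t : H.A W) :
    e0 pr s o t = H.pull pr (H.push pr (H.cl (C.pull s o) * t)) := rfl

omit hC hH [CharZero F] in
lemma e2_apply (pr : W ⟶ Z) (s : W ⟶ S) (o : C.A S) (t : H.A W) :
    e2 pr s o t = H.cl (C.pull s o) * H.pull pr (H.push pr t) := rfl

omit hC hH [CharZero F] in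
lemma e1_apply (pr : W ⟶ Z) (s : W ⟶ S) (o : C.A S) (t : H.A W) :
    e1 pr s o t = t - e0 pr s o t - e2 pr s o t := rfl

section coord

variable {pr : W ⟶ Z} {s : W ⟶ S} (h : IsCoord C pr s) {o : C.A S} (ho : C.Deg 1 o)
  (hd : HasDegree C o 1)

include h

lemma push_low {l : ℤ} (hl : l < 2) {b : H.A S} (hb : b ∈ H.gr S l) :
    H.push pr (H.pull s b) = 0 := by
  have h1 := H.push_mem pr (H.pull_mem s hb)
  rw [H.gr_neg Z _ (by rw [h.dim]; push_cast; omega)] at h1
  exact (Submodule.mem_bot _).1 h1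

lemma high {l : ℤ} (hl : 2 < l) {b : H.A S} (hb : b ∈ H.gr S l) : b = 0 := by
  rw [gr_top H (by rw [h.curve]; push_cast; omega)] at hb
  exact (Submodule.mem_bot _).1 hb

include hd

lemma push_o (c : F) : H.push pr (H.pull s (c • H.cl o)) = c • (1 : H.A Z) := by
  rw [map_smul, map_smul, ← H.cl_pull, ← H.cl_push, h.push o hd, map_one]

include ho

lemma e1_mul (x x' : H.A Z) {l : ℤ} {b : H.A S} (hb : b ∈ H.gr S l) :
    e1 pr s o (H.pull pr x * H.pull s b * H.pull pr x') =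
      if l = 1 then H.pull pr x * H.pull s b * H.pull pr x' else 0 := by
  have ho' : H.cl o ∈ H.gr S 2 := H.cl_mem ho
  have key : ∀ y : H.A S, H.push pr (H.pull pr x * H.pull s y * H.pull pr x') =
      x * H.push pr (H.pull s y) * x' := by
    intro y
    rw [H.proj_right, H.proj_left]
  have k0 : e0 pr s o (H.pull pr x * H.pull s b * H.pull pr x') =
      H.pull pr (x * H.push pr (H.pull s (H.cl o * b)) * x') := by
    rw [e0_apply, ← key, map_mul (H.pull s), ← H.cl_pull]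
    congr 2
    rw [← mul_assoc, ← mul_assoc, H.cl_central, mul_assoc (H.pull pr x)]
  have k2 : e2 pr s o (H.pull pr x * H.pull s b * H.pull pr x') =
      H.cl (C.pull s o) * H.pull pr (x * H.push pr (H.pull s b) * x') := by
    rw [e2_apply, key]
  rw [e1_apply, k0, k2]
  by_cases h1 : l = 1
  · subst h1
    have e1 : H.cl o * b = 0 := high h (by norm_num) (H.mul_mem ho' hb)
    rw [if_pos rfl, e1, push_low h (by norm_num) hb]
    simp
  rw [if_neg h1]
  by_cases h0 : l = 0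
  · subst h0
    obtain ⟨c, rfl⟩ := hH.gr_zero S b hb
    rw [push_low h (by norm_num) hb]
    have e1 : H.cl o * (c • (1 : H.A S)) = c • H.cl o := by rw [mul_smul_comm, mul_one]
    rw [e1, push_o h hd]
    simp
  by_cases h2 : l = 2
  · subst h2
    have e1 : H.cl o * b = 0 := high h (by norm_num) (H.mul_mem ho' hb)
    have ho3 : C.Deg S.dim o := by rw [h.curve]; exact_mod_cast ho
    obtain ⟨c, rfl⟩ := top_eq H ho3 hd (a := b) (by rw [h.curve]; exact_mod_cast hb)
    rw [e1, push_o h hd]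
    simp only [map_zero, mul_zero, zero_mul, sub_zero, mul_smul_comm, mul_one, smul_mul_assoc,
      map_smul, map_mul]
    rw [← smul_sub, ← H.cl_pull, ← mul_assoc (H.cl (C.pull s o)), H.cl_central, sub_self,
      smul_zero]
  have hb0 : b = 0 := by
    rcases lt_or_gt_of_ne h0 with h3 | h3
    · rw [H.gr_neg S _ h3] at hb
      exact (Submodule.mem_bot _).1 hb
    · exact high h (by omega) hb
  subst hb0
  simp

omit hd in
lemma e02_mem {𝓜 𝓝 : Family H} {R : ℕ} (hZ : Good 𝓜 𝓝 R Z) {r : ℕ} (hr : r ≤ R) {t : H.A W}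
    (ht : 𝓜.Mem W r t) : 𝓝.Mem W r (e0 pr s o t) ∧ 𝓝.Mem W r (e2 pr s o t) := by
  have ho' : C.Deg ((1 : ℕ) : ℤ) (C.pull s o) := C.pull_mem s (by exact_mod_cast ho)
  constructor
  · rw [e0_apply]
    have h1 : 𝓜.Mem W (r + 1) (H.cl (C.pull s o) * t) := 𝓜.mul ht ho'
    have h2 := 𝓜.push pr (s := r) (by rw [h.dim]; omega) h1
    exact 𝓝.pull pr (hZ r hr _ h2)
  · rw [e2_apply]
    obtain _ | r := r
    · have h1 := H.push_mem pr (𝓜.deg ht)
      rw [H.gr_neg Z _ (by rw [h.dim]; push_cast; omega)] at h1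
      rw [(Submodule.mem_bot _).1 h1, map_zero, mul_zero]
      exact 𝓝.zero W 0
    · have h2 := 𝓜.push pr (s := r) (by rw [h.dim]; omega) ht
      exact 𝓝.mul (𝓝.pull pr (hZ r (by omega) _ h2)) ho'

omit hd in
lemma e1_mem {𝓜 : Family H} {r : ℕ} {t : H.A W} (ht : 𝓜.Mem W r t) :
    𝓜.Mem W r (e1 pr s o t) := by
  have h1 := e02_mem h ho (𝓜 := 𝓜) (𝓝 := 𝓜) (R := r) (fun _ _ _ h => h) le_rfl ht
  rw [e1_apply]
  exact 𝓜.sub (𝓜.sub ht h1.1) h1.2

omit hd in
lemma of_e1_mem {𝓜 𝓝 : Family H} {R : ℕ} (hZ : Good 𝓜 𝓝 R Z) {r : ℕ} (hr : r ≤ R) {t : H.A W}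
    (ht : 𝓜.Mem W r t) (h1 : 𝓝.Mem W r (e1 pr s o t)) : 𝓝.Mem W r t := by
  have h2 := e02_mem h ho hZ hr ht
  have h3 : t = e1 pr s o t + e0 pr s o t + e2 pr s o t := by rw [e1_apply]; abel
  rw [h3]
  exact 𝓝.add (𝓝.add h1 h2.1) h2.2

end coord

omit hH [CharZero F] in
lemma isCoord_prod (hS : S.dim = 1) : IsCoord C (fst Z S) (snd Z S) :=
  ⟨by rw [dim_prod, hS], hS, fun o ho => by rw [(ho Z).2, one_smul]⟩

omit hH [CharZero F] in
lemma isCoord_fst (hT : T.dim = 1) :
    IsCoord C (prodMap (𝟙 Z) (fst S T)) (snd Z (S.prod T) ≫ snd S T) := by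
  refine ⟨by simp only [dim_prod]; omega, hT, fun o ho => ?_⟩
  rw [C.pull_comp, ← C.base_snd, (ho S).2, one_smul, map_one]

omit hH [CharZero F] in
lemma isCoord_snd (hS : S.dim = 1) :
    IsCoord C (prodMap (𝟙 Z) (snd S T)) (snd Z (S.prod T) ≫ fst S T) := by
  refine ⟨by simp only [dim_prod]; omega, hS, fun o ho => ?_⟩
  rw [C.pull_comp, ← C.base_snd, (ho T).1, one_smul, map_one]

end Pool.Agent.H255R.HR
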