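import Pool.Agent.Y148.BB.Curve

/-!
# Regular surfaces and products of curves: definitions for classes in a Weil cohomology
-/

open CategoryTheory AlgebraicGeometry

universe u v w

namespace Pool.Agent.H255R.HR

open Pool.Agent.H914 Pool.Agent.H914.VarClass Pool.Agent.H914.VarClass.Obj Pool.Agent.W492.BB
  Pool.Agent.W550.Corr Pool.Agent.TH133

variable {k : Type u} [Field k] {𝒱 : VarClass k} {C : TheoryData.{u, v, 0} 𝒱 ℚ}
  {F : Type w} [Field F] (H : WeilTheoryData.{u, v, w} C F)

/-- A family of classes in `H^{2r}(X)`, for all `X` and `r`: rational subspaces, preserved by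
pull-backs, push-forwards and products with the classes of cycles. (For example the Tate classes,
the Hodge classes, the algebraic classes, the classes of the numerically trivial cycles, or only the
class `0`.) -/
structure Family where
  /-- `Mem X r t`: the class `t ∈ H^{2r}(X)` is in the family -/
  Mem : ∀ X : 𝒱.Obj, ℕ → H.A X → Prop
  deg : ∀ {X : 𝒱.Obj} {r : ℕ} {t : H.A X}, Mem X r t → H.Deg (2 * r) t
  zero : ∀ (X : 𝒱.Obj) (r : ℕ), Mem X r 0
  add : ∀ {X : 𝒱.Obj} {r : ℕ} {s t : H.A X}, Mem X r s → Mem X r t → Mem X r (s + t)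
  smul : ∀ {X : 𝒱.Obj} {r : ℕ} {t : H.A X} (q : ℚ), Mem X r t → Mem X r ((q : F) • t)
  pull : ∀ {X Y : 𝒱.Obj} (f : X ⟶ Y) {r : ℕ} {t : H.A Y}, Mem Y r t → Mem X r (H.up f t)
  push : ∀ {X Y : 𝒱.Obj} (f : X ⟶ Y) {r s : ℕ} {t : H.A X}, r + Y.dim = s + X.dim → Mem X r t →
    Mem Y s (H.down f t)
  mul : ∀ {X : 𝒱.Obj} {r s : ℕ} {t : H.A X} {z : C.A X}, Mem X r t → C.Deg s z →
    Mem X (r + s) (H.mul (H.cl z) t)

/-- `IsProdOf U Q n W`: the variety `W` is the product `((U × X_1) × ⋯) × X_n` of the variety `U` and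
of `n` varieties `X_i` with the property `Q`. (For `U = Spec k` these are the products of `n`
varieties with the property `Q`.) -/
inductive IsProdOf (U : 𝒱.Obj) (Q : 𝒱.Obj → Prop) : ℕ → 𝒱.Obj → Prop
  | base : IsProdOf U Q 0 U
  | prod (n : ℕ) (W X : 𝒱.Obj) (hW : IsProdOf U Q n W) (hX : Q X) : IsProdOf U Q (n + 1) (W.prod X)

/-- The variety `X` is a regular surface: `H^1(X) = 0` (equivalently, its irregularity is zero). -/
def IsRegularSurface (X : 𝒱.Obj) : Prop := X.dim = 2 ∧ ∀ a : H.A X, H.Deg 1 a → a = 0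

/-- The class `[Z × e'] · q^* q_* ([Z × e] · t)`, where `q : Z × Y ⟶ Z` is the projection. -/
noncomputable def exc {Y : 𝒱.Obj} (e e' : C.A Y) (Z : 𝒱.Obj) (t : H.A (Z.prod Y)) : H.A (Z.prod Y) :=
  H.mul (H.cl (C.up (snd Z Y) e'))
    (H.up (fst Z Y) (H.down (fst Z Y) (H.mul (H.cl (C.up (snd Z Y) e)) t)))

/-- `b : Y ⟶ X` is a birational morphism of surfaces, in the form of the following properties:
`b_* [Y] = [X]`; `b^* b_* y = y` for all `y ∈ H^1(Y)` (the cohomology group `H^1` is a birational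
invariant); and there are divisor classes `e j`, `e' j` on `Y` such that
`t = (1 × b)^* (1 × b)_* t + ∑_j [Z × e' j] · q^* q_* ([Z × e j] · t)` for all varieties `Z` and all
`t ∈ H^*(Z × Y)`, where `q : Z × Y ⟶ Z` is the projection (if `E j` are the total transforms of the
exceptional curves, then the diagonal of `Y` is `(b × b)^* [Δ_X] - ∑_j E j × E j`). -/
def IsBirational {Y X : 𝒱.Obj} (b : Y ⟶ X) : Prop :=
  Y.dim = X.dim ∧ C.down b 1 = 1 ∧ (∀ y : H.A Y, H.Deg 1 y → H.up b (H.down b y) = y) ∧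
    ∃ (n : ℕ) (e e' : Fin n → C.A Y), (∀ j, C.Deg 1 (e j) ∧ C.Deg 1 (e' j)) ∧
      ∀ (Z : 𝒱.Obj) (t : H.A (Z.prod Y)),
        t = H.up (prodMap (𝟙 Z) b) (H.down (prodMap (𝟙 Z) b) t) +
          ∑ j, exc H (e j) (e' j) Z t

/-- The morphism `f : Y ⟶ X` is of degree `m` (`f_* [Y] = m [X]`), and `Y` and `X` have the same
dimension. -/
def IsOfDegree (C : TheoryData.{u, v, 0} 𝒱 ℚ) {Y X : 𝒱.Obj} (f : Y ⟶ X) (m : ℚ) : Prop :=
  Y.dim = X.dim ∧ C.down f 1 = m • (1 : C.A X)

/-- The surface `X` is dominated by the product of two curves `V` and `W` in the class `𝒞`: there is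
a rational map from `V × W` to `X` of finite degree. In other words, there are a surface `Y`, a
birational morphism `b : Y ⟶ V × W`, and a morphism `f : Y ⟶ X` of degree `m ≠ 0`. -/
def IsDominatedSurface (𝒞 : 𝒱.Obj → Prop) (X : 𝒱.Obj) : Prop :=
  X.dim = 2 ∧ ∃ (V W Y : 𝒱.Obj) (b : Y ⟶ V.prod W) (f : Y ⟶ X) (m : ℚ), 𝒞 V ∧ 𝒞 W ∧
    IsBirational H b ∧ IsOfDegree C f m ∧ m ≠ 0

/-- The class of the surfaces which are regular and dominated by a product of two curves in `𝒞`. -/
def IsRegularDominated (𝒞 : 𝒱.Obj → Prop) (X : 𝒱.Obj) : Prop :=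
  IsRegularSurface H X ∧ IsDominatedSurface H 𝒞 X

/-- The curve `V`, with an action `ρ` of the finite group `G`, is a Galois covering of the projective
line with group `G`, and `p : V ⟶ S` is the quotient of `V` by the subgroup `L`. (In the form of the
properties: `ρ (g h) = ρ(g) ρ(h)`, as maps `V ⟶ V`; `p ρ(h) = p` for `h ∈ L`; `p_* [V] = |L| [S]`; and
`∑_g ρ(g)_* a = 0` for `a ∈ H^1(V)`, since this is the pull-back of a class on the quotient `V / G`,
which is the projective line.) -/
structure IsGaloisOverLine {G : Type} [Group G] [Fintype G] (L : Subgroup G) {V S : 𝒱.Obj}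
    (ρ : G → (V ⟶ V)) (p : V ⟶ S) : Prop where
  one : ρ 1 = 𝟙 V
  mul : ∀ g h, ρ (g * h) = ρ h ≫ ρ g
  quot : ∀ h ∈ L, ρ h ≫ p = p
  deg : IsOfDegree C p (Nat.card L)
  line : ∀ a : H.A V, H.Deg 1 a → ∑ g : G, H.down (ρ g) a = 0

/-- The group `G` acts doubly transitively on `G / L`, and `L ≠ G`: the elements outside `L` form
one double coset of `L`. -/
def IsDoublyTransitive {G : Type} [Group G] (L : Subgroup G) : Prop :=
  L ≠ ⊤ ∧ ∀ g h : G, g ∉ L → h ∉ L → ∃ a ∈ L, ∃ b ∈ L, h = a * g * b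

/-- The surface `X` is a smooth projective model of the quotient `(V × W) / G`, where `V` and `W`
are curves in the class `𝒞` which are Galois coverings of the projective line with the same group
`G`, and the curves `S` and `T` are the quotients of `V` and of `W` by a subgroup `L` such that `G`
acts doubly transitively on `G / L`. (Examples: `S` and `T` are coverings of the projective line of
the same degree `d ≥ 2`, with simple branching, `V` and `W` are their Galois closures, `G` is the
symmetric group of degree `d`, and `L` is the stabiliser of a point; or `V = S` and `W = T` are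
hyperelliptic curves, or elliptic curves, and `G` is generated by the involution.) That is: there are a
birational morphism `b : Y ⟶ V × W` and a morphism `π : Y ⟶ X` of degree `|G|` with
`b_* π^* π_* b^* y = ∑_g (ρ(g) × τ(g))_* y` for all `y ∈ H^*(V × W)`. -/
def IsGaloisQuotient (𝒞 : 𝒱.Obj → Prop) (S T X : 𝒱.Obj) : Prop :=
  ∃ (G : Type) (_ : Group G) (_ : Fintype G) (L : Subgroup G) (V W : 𝒱.Obj) (ρ : G → (V ⟶ V))
    (τ : G → (W ⟶ W)) (p : V ⟶ S) (r : W ⟶ T) (Y : 𝒱.Obj) (b : Y ⟶ V.prod W) (π : Y ⟶ X),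
    IsDoublyTransitive L ∧ 𝒞 V ∧ 𝒞 W ∧
    IsGaloisOverLine H L ρ p ∧ IsGaloisOverLine H L τ r ∧
    IsBirational H b ∧ IsOfDegree C π (Nat.card G) ∧
    ∀ y : H.A (V.prod W),
      H.down b (H.up π (H.down π (H.up b y))) = ∑ g : G, H.down (prodMap (ρ g) (τ g)) y

/-- `𝒞` is a class of curves, and for any two curves `S` and `T` in `𝒞` there is a surface `X` as in
`IsGaloisQuotient`. (Examples: all curves, over an algebraically closed field of characteristic
zero, since `S` and `T` are coverings of the projective line of the same degree with simple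
branching; the curves of genus at most one and the hyperelliptic curves; one hyperelliptic curve.) -/
def HasGaloisQuotients (𝒞 : 𝒱.Obj → Prop) : Prop :=
  (∀ S : 𝒱.Obj, 𝒞 S → S.dim = 1) ∧
    ∀ S T : 𝒱.Obj, 𝒞 S → 𝒞 T → ∃ X : 𝒱.Obj, IsGaloisQuotient H 𝒞 S T X

/-- The odd cohomology groups of the variety `U` vanish (for example `U = Spec k`, or `U` a regular
surface). -/
def OddVanish (U : 𝒱.Obj) : Prop := ∀ (i : ℤ) (a : H.A U), Odd i → H.Deg i a → a = 0

/-- The variety `X` is dominated by the variety `W`: there are a morphism `f : W ⟶ X` and a class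
`z` on `W` such that `f_* z` is the fundamental class of `X` (in other words, `f` is surjective). -/
def IsDominatedBy (C : TheoryData.{u, v, 0} 𝒱 ℚ) (W X : 𝒱.Obj) : Prop :=
  ∃ (f : W ⟶ X) (e : ℕ) (z : C.A W), W.dim = X.dim + e ∧ C.Deg e z ∧ C.down f z = 1

end Pool.Agent.H255R.HR
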