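import Pool.Agent.H255R.HR.Defs

/-!
# Tate classes, algebraic classes, numerically trivial classes: definitions
-/

open CategoryTheory AlgebraicGeometry

universe u v w

namespace Pool.Agent.H255R.HR

open Pool.Agent.H914 Pool.Agent.H914.VarClass Pool.Agent.H914.VarClass.Obj Pool.Agent.W492.BB
  Pool.Agent.W550.Corr Pool.Agent.TH133

variable {k : Type u} [Field k] {𝒱 : VarClass k} {C : TheoryData.{u, v, 0} 𝒱 ℚ}
  {F : Type w} [Field F] (H : WeilTheoryData.{u, v, w} C F)

/-- The class `x` is algebraic: it is a linear combination, with coefficients in `F`, of classes of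
cycles of codimension `r`. -/
def IsAlg {X : 𝒱.Obj} (r : ℕ) (x : H.A X) : Prop :=
  x ∈ Submodule.span F {y : H.A X | ∃ z : C.A X, C.Deg r z ∧ y = H.cl z}

/-- An endomorphism of the vector space `H^*(X)`. -/
def WEnd (X : 𝒱.Obj) : Type _ := H.A X →ₗ[F] H.A X

variable {H} in
/-- The value at the class `a` of the endomorphism `f` of `H^*(X)`. -/
noncomputable def WEnd.ap {X : 𝒱.Obj} (f : WEnd H X) (a : H.A X) : H.A X := (show H.A X →ₗ[F] H.A X from f) a

/-- The multiple `c a` of the class `a`. -/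
noncomputable def scale {X : 𝒱.Obj} (c : F) (a : H.A X) : H.A X := c • a

/-- The action of the group `Γ` on the cohomology groups `H^i(X)`; `χ s` is the scalar by which
`s ∈ Γ` acts on `F(-1)` (so `s` acts on the twist `H^{2r}(X)(r)` by `χ(s)^{-r} σ(s)`). It is
compatible with pull-backs, products and push-forwards, and the class of a cycle of codimension `r` is
fixed, in `H^{2r}(X)(r)`, by some subgroup in the set `𝒮`. (The cases to have in mind: `Γ` is
the Galois group of a field `k`, with `𝒮 = {Γ}` and cycles over `k`; or `𝒮` is the set of all open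
subgroups, or of all subgroups of finite index, with cycles over the closure of `k`.) -/
structure GaloisAction (Γ : Type) [Group Γ] (𝒮 : Set (Subgroup Γ)) where
  /-- the action on the cohomology -/
  act : Γ → ∀ X : 𝒱.Obj, WEnd H X
  /-- the action on `F(-1)` -/
  χ : Γ → F
  χ_ne : ∀ s, χ s ≠ 0
  nonempty : 𝒮.Nonempty
  inter : ∀ A ∈ 𝒮, ∀ B ∈ 𝒮, ∃ D ∈ 𝒮, D ≤ A ∧ D ≤ B
  pull_act : ∀ {X Y : 𝒱.Obj} (f : X ⟶ Y) (s : Γ) (b : H.A Y),
    (act s X).ap (H.up f b) = H.up f ((act s Y).ap b)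
  push_act : ∀ {X Y : 𝒱.Obj} (f : X ⟶ Y) (s : Γ) (a : H.A X),
    (act s Y).ap (H.down f a) =
      scale H (χ s ^ ((Y.dim : ℤ) - X.dim)) (H.down f ((act s X).ap a))
  mul_act : ∀ {X : 𝒱.Obj} (s : Γ) (a b : H.A X),
    (act s X).ap (H.mul a b) = H.mul ((act s X).ap a) ((act s X).ap b)
  cl_act : ∀ {X : 𝒱.Obj} (r : ℕ) (z : C.A X), C.Deg r z → ∃ A ∈ 𝒮, ∀ s ∈ A,
    (act s X).ap (H.cl z) = scale H (χ s ^ r) (H.cl z)

variable {H} in
/-- The action on the cohomology. -/
noncomputable def GaloisAction.σ {Γ : Type} [Group Γ] {𝒮 : Set (Subgroup Γ)} (G : GaloisAction H Γ 𝒮) (s : Γ)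
    (X : 𝒱.Obj) : H.A X →ₗ[F] H.A X := G.act s X

variable {H} in
/-- The class `t ∈ H^{2r}(X)` is a Tate class: in `H^{2r}(X)(r)` it is fixed by some subgroup in the
set `𝒮`. -/
def GaloisAction.IsTate {Γ : Type} [Group Γ] {𝒮 : Set (Subgroup Γ)} (G : GaloisAction H Γ 𝒮)
    {X : 𝒱.Obj} (r : ℕ) (t : H.A X) : Prop :=
  H.Deg (2 * r) t ∧ ∃ A ∈ 𝒮, ∀ s ∈ A, G.σ s X t = G.χ s ^ r • t

variable {H} in
/-- The Tate conjecture for the variety `X` in codimensions at most `R`: all Tate classes are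
algebraic. -/
def GaloisAction.TateConj {Γ : Type} [Group Γ] {𝒮 : Set (Subgroup Γ)} (G : GaloisAction H Γ 𝒮)
    (R : ℕ) (X : 𝒱.Obj) : Prop :=
  ∀ r ≤ R, ∀ t : H.A X, G.IsTate r t → IsAlg H r t

/-- The cycle `z` of codimension `r` on `X` is numerically equivalent to zero: its intersection
numbers `Tr(cl(z) cl(w))` with all cycles `w` of the complementary codimension are zero. -/
def IsNumTrivial {X : 𝒱.Obj} (r : ℕ) (z : C.A X) : Prop :=
  C.Deg r z ∧ ∀ w : C.A X, C.Deg ((X.dim : ℤ) - r) w → H.tr X (H.cl z * H.cl w) = 0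

/-- Conjecture `D` for the variety `X` in codimensions at most `R`: the cycles which are numerically
equivalent to zero are homologically equivalent to zero. -/
def ConjD (R : ℕ) (X : 𝒱.Obj) : Prop :=
  ∀ r ≤ R, ∀ z : C.A X, IsNumTrivial H r z → H.cl z = 0

end Pool.Agent.H255R.HR
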