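import Pool.Agent.H255R.HR.Conv
import Pool.Agent.H255R.HR.FDefs

/-!
# Tate classes, algebraic classes, numerically trivial classes
-/

open CategoryTheory AlgebraicGeometry

universe u v w

namespace Pool.Agent.H255R.HR

open Pool.Agent.H914 Pool.Agent.H914.VarClass Pool.Agent.H914.VarClass.Obj Pool.Agent.W492.BB
  Pool.Agent.W550.Corr Pool.Agent.TH133 Pool.Agent.Y148.BB Pool.Agent.H255R.PC

set_option linter.unusedSectionVars false

variable {k : Type u} [Field k] {𝒱 : VarClass k} {C : TheoryData.{u, v, 0} 𝒱 ℚ}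
  {F : Type w} [Field F] (H : WeilTheoryData.{u, v, w} C F)

variable {H} in
lemma GaloisAction.pull {Γ : Type} [Group Γ] {𝒮 : Set (Subgroup Γ)} (G : GaloisAction H Γ 𝒮)
    {X Y : 𝒱.Obj} (f : X ⟶ Y) (s : Γ) (b : H.A Y) : G.σ s X (H.up f b) = H.up f (G.σ s Y b) :=
  G.pull_act f s b

variable {H} in
lemma GaloisAction.push {Γ : Type} [Group Γ] {𝒮 : Set (Subgroup Γ)} (G : GaloisAction H Γ 𝒮)
    {X Y : 𝒱.Obj} (f : X ⟶ Y) (s : Γ) (a : H.A X) :
    G.σ s Y (H.down f a) = G.χ s ^ ((Y.dim : ℤ) - X.dim) • H.down f (G.σ s X a) :=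
  G.push_act f s a

variable {H} in
lemma GaloisAction.mul {Γ : Type} [Group Γ] {𝒮 : Set (Subgroup Γ)} (G : GaloisAction H Γ 𝒮)
    {X : 𝒱.Obj} (s : Γ) (a b : H.A X) : G.σ s X (a * b) = G.σ s X a * G.σ s X b :=
  G.mul_act s a b

variable {H} in
lemma GaloisAction.cl {Γ : Type} [Group Γ] {𝒮 : Set (Subgroup Γ)} (G : GaloisAction H Γ 𝒮)
    {X : 𝒱.Obj} (r : ℕ) (z : C.A X) (hz : C.Deg r z) : ∃ A ∈ 𝒮, ∀ s ∈ A,
    G.σ s X (H.cl z) = G.χ s ^ r • H.cl z :=
  G.cl_act r z hz

variable [hC : IsChowProj C] [CharZero F] [hH : IsWeilProj H]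

/-- The algebraic classes. -/
def algFamily : Family H where
  Mem X r t := IsAlg H r t
  deg := by
    intro X r t ht
    have h : Submodule.span F {y : H.A X | ∃ z : C.A X, C.Deg r z ∧ y = H.cl z} ≤
        H.gr X (2 * r) := by
      rw [Submodule.span_le]
      rintro y ⟨z, hz, rfl⟩
      exact H.cl_mem hz
    exact h ht
  zero X r := Submodule.zero_mem _
  add := fun hs ht => Submodule.add_mem _ hs ht
  smul := fun q ht => Submodule.smul_mem _ _ ht
  pull := by
    intro X Y f r t ht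
    have h : Submodule.span F {y : H.A Y | ∃ z : C.A Y, C.Deg r z ∧ y = H.cl z} ≤
        (Submodule.span F {y : H.A X | ∃ z : C.A X, C.Deg r z ∧ y = H.cl z}).comap
          (H.pull f).toLinearMap := by
      rw [Submodule.span_le]
      rintro y ⟨z, hz, rfl⟩
      exact Submodule.subset_span ⟨C.pull f z, C.pull_mem f hz, (H.cl_pull f z).symm⟩
    exact h ht
  push := by
    intro X Y f r s t hrs ht
    have h : Submodule.span F {y : H.A X | ∃ z : C.A X, C.Deg r z ∧ y = H.cl z} ≤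
        (Submodule.span F {y : H.A Y | ∃ z : C.A Y, C.Deg s z ∧ y = H.cl z}).comap
          (H.push f) := by
      rw [Submodule.span_le]
      rintro y ⟨z, hz, rfl⟩
      refine Submodule.subset_span ⟨C.push f z, ?_, (H.cl_push f z).symm⟩
      exact gr_congr (by omega) (C.push_mem f hz)
    exact h ht
  mul := by
    intro X r s t z ht hz
    have h : Submodule.span F {y : H.A X | ∃ z : C.A X, C.Deg r z ∧ y = H.cl z} ≤
        (Submodule.span F {y : H.A X | ∃ z : C.A X, C.Deg (r + s : ℕ) z ∧ y = H.cl z}).comap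
          (LinearMap.mulLeft F (H.cl z)) := by
      rw [Submodule.span_le]
      rintro y ⟨x, hx, rfl⟩
      refine Submodule.subset_span ⟨z * x, ?_, (map_mul H.cl z x).symm⟩
      exact gr_congr (by push_cast; ring) (C.mul_mem hz hx)
    exact h ht

/-- The Tate classes. -/
def GaloisAction.family {Γ : Type} [Group Γ] {𝒮 : Set (Subgroup Γ)} (G : GaloisAction H Γ 𝒮) :
    Family H where
  Mem X r t := G.IsTate r t
  deg := fun ht => ht.1
  zero X r := by
    obtain ⟨A, hA⟩ := G.nonempty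
    exact ⟨Submodule.zero_mem _, A, hA, fun s _ => by rw [map_zero, smul_zero]⟩
  add := by
    rintro X r s t ⟨hs, A, hA, hs'⟩ ⟨ht, B, hB, ht'⟩
    obtain ⟨D, hD, hDA, hDB⟩ := G.inter A hA B hB
    exact ⟨Submodule.add_mem _ hs ht, D, hD, fun g hg => by
      rw [map_add, hs' g (hDA hg), ht' g (hDB hg), smul_add]⟩
  smul := by
    rintro X r t q ⟨ht, A, hA, ht'⟩
    exact ⟨Submodule.smul_mem _ _ ht, A, hA, fun g hg => by
      rw [map_smul, ht' g hg, smul_comm]⟩
  pull := by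
    rintro X Y f r t ⟨ht, A, hA, ht'⟩
    refine ⟨H.pull_mem f ht, A, hA, fun g hg => ?_⟩
    rw [G.pull, ht' g hg]
    exact map_smul (H.pull f) _ _
  push := by
    rintro X Y f r s t hrs ⟨ht, A, hA, ht'⟩
    refine ⟨?_, A, hA, fun g hg => ?_⟩
    · have h := H.push_mem f ht
      have e : 2 * (r : ℤ) + 2 * ((Y.dim : ℤ) - X.dim) = 2 * (s : ℤ) := by omega
      rwa [e] at h
    · rw [G.push, ht' g hg]
      have h2 : H.down f (G.χ g ^ r • t) = G.χ g ^ r • H.down f t := map_smul (H.push f) _ _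
      rw [h2, smul_smul]
      congr 1
      have e : (s : ℤ) = ((Y.dim : ℤ) - X.dim) + r := by omega
      rw [← zpow_natCast (G.χ g) s, e, zpow_add₀ (G.χ_ne g), zpow_natCast]
  mul := by
    rintro X r s t z ⟨ht, A, hA, ht'⟩ hz
    obtain ⟨B, hB, hz'⟩ := G.cl s z hz
    obtain ⟨D, hD, hDA, hDB⟩ := G.inter A hA B hB
    refine ⟨?_, D, hD, fun g hg => ?_⟩
    · have h := H.mul_mem (H.cl_mem hz) ht
      have e : 2 * (s : ℤ) + 2 * (r : ℤ) = 2 * ((r + s : ℕ) : ℤ) := by push_cast; ring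
      rwa [e] at h
    · change G.σ g X (H.cl z * t) = _ • (H.cl z * t)
      rw [G.mul, ht' g (hDA hg), hz' g (hDB hg), smul_mul_smul_comm, ← pow_add, add_comm r s]

/-- The classes of the cycles numerically equivalent to zero. -/
def numFamily : Family H where
  Mem X r t := ∃ z : C.A X, IsNumTrivial H r z ∧ H.cl z = t
  deg := by
    rintro X r t ⟨z, hz, rfl⟩
    exact H.cl_mem hz.1
  zero X r := ⟨0, ⟨Submodule.zero_mem _, fun w _ => by rw [map_zero, zero_mul, map_zero]⟩,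
    map_zero _⟩
  add := by
    rintro X r s t ⟨z, hz, rfl⟩ ⟨z', hz', rfl⟩
    refine ⟨z + z', ⟨Submodule.add_mem _ hz.1 hz'.1, fun w hw => ?_⟩, map_add _ _ _⟩
    rw [map_add, add_mul, map_add, hz.2 w hw, hz'.2 w hw, add_zero]
  smul := by
    rintro X r t q ⟨z, hz, rfl⟩
    refine ⟨q • z, ⟨Submodule.smul_mem _ _ hz.1, fun w hw => ?_⟩, cl_smul q z⟩
    rw [cl_smul, smul_mul_assoc, map_smul, hz.2 w hw, smul_zero]
  pull := by
    rintro X Y f r t ⟨z, hz, rfl⟩
    refine ⟨C.pull f z, ⟨C.pull_mem f hz.1, fun w hw => ?_⟩, H.cl_pull f z⟩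
    rw [H.cl_pull, ← H.tr_push f, H.proj_left, ← H.cl_push]
    exact hz.2 _ (gr_congr (by ring) (C.push_mem f hw))
  push := by
    rintro X Y f r s t hrs ⟨z, hz, rfl⟩
    refine ⟨C.push f z, ⟨gr_congr (by omega) (C.push_mem f hz.1), fun w hw => ?_⟩,
      H.cl_push f z⟩
    rw [H.cl_push, ← H.proj_right, H.tr_push f, ← H.cl_pull]
    exact hz.2 _ (gr_congr (by omega) (C.pull_mem f hw))
  mul := by
    rintro X r s t y ⟨z, hz, rfl⟩ hy
    refine ⟨y * z, ⟨gr_congr (by push_cast; ring) (C.mul_mem hy hz.1), fun w hw => ?_⟩,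
      map_mul _ _ _⟩
    rw [ch_comm C y z, map_mul H.cl, mul_assoc, ← map_mul H.cl]
    exact hz.2 _ (gr_congr (by push_cast; ring) (C.mul_mem hy hw))

/-- The class `0`. -/
def zeroFamily : Family H where
  Mem X r t := t = 0
  deg := by rintro X r t rfl; exact Submodule.zero_mem _
  zero X r := rfl
  add := by rintro X r s t rfl rfl; exact add_zero 0
  smul := by rintro X r t q rfl; exact smul_zero _
  pull := by rintro X Y f r t rfl; exact map_zero (H.pull f)
  push := by rintro X Y f r s t _ rfl; exact map_zero (H.push f)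
  mul := by rintro X r s t z rfl _; exact mul_zero _

lemma good_tate {Γ : Type} [Group Γ] {𝒮 : Set (Subgroup Γ)} (G : GaloisAction H Γ 𝒮) (R : ℕ)
    (X : 𝒱.Obj) : Good (G.family H) (algFamily H) R X ↔ G.TateConj R X := Iff.rfl

lemma good_D (R : ℕ) (X : 𝒱.Obj) : Good (numFamily H) (zeroFamily H) R X ↔ ConjD H R X := by
  constructor
  · intro h r hr z hz
    exact h r hr _ ⟨z, hz, rfl⟩
  · rintro h r hr t ⟨z, hz, rfl⟩
    exact h r hr z hz

end Pool.Agent.H255R.HR
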