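import Pool.Agent.H255R.HR.Curve

/-!
# The regular surface attached to two curves
-/

open CategoryTheory AlgebraicGeometry

universe u v w

namespace Pool.Agent.H255R.HR

open Pool.Agent.H914 Pool.Agent.H914.VarClass Pool.Agent.H914.VarClass.Obj Pool.Agent.W492.BB
  Pool.Agent.W550.Corr Pool.Agent.TH133 Pool.Agent.Y148.BB

set_option linter.unusedSectionVars false

variable {k : Type u} [Field k] {𝒱 : VarClass k} {C : TheoryData.{u, v, 0} 𝒱 ℚ}
  {F : Type w} [Field F] {H : WeilTheoryData.{u, v, w} C F}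
  {X Y Z S T V W : 𝒱.Obj}

variable [hC : IsChowProj C] [CharZero F] [hH : IsWeilProj H]

include hC hH

/-- The Galois translates. -/
lemma translate {G : Type} [Group G] [Fintype G] {L : Subgroup G} {ρ : G → (V ⟶ V)}
    {p : V ⟶ S} (h : IsGaloisOverLine H L ρ p) (hL : IsDoublyTransitive L) {a : H.A S}
    (ha : H.Deg 1 a) :
    (∀ g ∈ L, H.push p (H.push (ρ g) (H.pull p a)) = (Nat.card L : F) • a) ∧
    (∀ g, g ∉ L → H.push p (H.push (ρ g) (H.pull p a)) =
      (-((Nat.card L : F) ^ 2 / ((Nat.card G : F) - Nat.card L))) • a) := by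
  classical
  have hiso : ∀ g, ρ g ≫ ρ g⁻¹ = 𝟙 V ∧ ρ g⁻¹ ≫ ρ g = 𝟙 V := by
    intro g
    rw [← h.mul, ← h.mul, inv_mul_cancel, mul_inv_cancel, h.one]
    exact ⟨rfl, rfl⟩
  have hmul : ∀ (g g' : G) (x : H.A V), H.push (ρ (g * g')) x = H.push (ρ g) (H.push (ρ g') x) := by
    intro g g' x
    rw [h.mul, H.push_comp]
  have hinv : ∀ g ∈ L, H.push (ρ g) (H.pull p a) = H.pull p a := by
    intro g hg
    have e1 : H.pull p a = H.pull (ρ g) (H.pull p a) := by
      rw [← H.pull_comp, h.quot g hg]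
    rw [e1, push_pull_iso H.toTheoryData (ρ g) (ρ g⁻¹) (hiso g).1 (hiso g).2, ← e1]
  have hpush : ∀ g ∈ L, ∀ x : H.A V, H.push p (H.push (ρ g) x) = H.push p x := by
    intro g hg x
    rw [← H.push_comp, h.quot g hg]
  have h1 : ∀ g ∈ L, H.push p (H.push (ρ g) (H.pull p a)) = (Nat.card L : F) • a := by
    intro g hg
    rw [hpush g hg, push_pullH h.deg, Rat.cast_natCast]
  refine ⟨h1, ?_⟩
  -- the double coset
  have h2 : ∀ g g' : G, g ∉ L → g' ∉ L → H.push p (H.push (ρ g') (H.pull p a)) =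
      H.push p (H.push (ρ g) (H.pull p a)) := by
    intro g g' hg hg'
    obtain ⟨x, hx, y, hy, rfl⟩ := hL.2 g g' hg hg'
    rw [mul_assoc, hmul, hpush x hx, hmul, hinv y hy]
  intro g hg
  set t := H.push p (H.push (ρ g) (H.pull p a)) with ht
  have h3 := h.line (H.pull p a) (H.pull_mem p ha)
  have h4 : ∑ g' : G, H.push p (H.push (ρ g') (H.pull p a)) = 0 := by
    have h5 : ∑ g' : G, H.push (ρ g') (H.pull p a) = 0 := h3
    rw [← map_sum, h5, map_zero]
  have h5 : ∑ g' : G, H.push p (H.push (ρ g') (H.pull p a)) =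
      ∑ g' : G, (if g' ∈ L then (Nat.card L : F) • a else t) := by
    refine Finset.sum_congr rfl fun g' _ => ?_
    split_ifs with hg'
    · exact h1 g' hg'
    · exact h2 g g' hg hg'
  have hcard : (Finset.univ.filter (fun g' : G => g' ∈ L)).card = Nat.card L := by
    rw [Nat.card_eq_fintype_card, Fintype.card_subtype]
  have hcardG : (Finset.univ.filter (fun g' : G => g' ∉ L)).card = Nat.card G - Nat.card L := by
    have h6 := Finset.card_filter_add_card_filter_not (s := (Finset.univ : Finset G))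
      (p := fun g' => g' ∈ L)
    rw [hcard, Finset.card_univ, ← Nat.card_eq_fintype_card] at h6
    omega
  rw [h5, Finset.sum_ite, Finset.sum_const, Finset.sum_const, hcard, hcardG] at h4
  have hpos : 0 < (Finset.univ.filter (fun g' : G => g' ∉ L)).card :=
    Finset.card_pos.2 ⟨g, Finset.mem_filter.2 ⟨Finset.mem_univ _, hg⟩⟩
  rw [hcardG] at hpos
  have hlt : Nat.card L ≤ Nat.card G := by omega
  have hne : (Nat.card G : F) - Nat.card L ≠ 0 := by
    rw [← Nat.cast_sub hlt]
    exact_mod_cast hpos.ne'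
  rw [← Nat.cast_smul_eq_nsmul F, ← Nat.cast_smul_eq_nsmul F, Nat.cast_sub hlt, smul_smul] at h4
  have h7 : ((Nat.card G : F) - Nat.card L) • t = (-((Nat.card L : F) * Nat.card L)) • a := by
    rw [neg_smul, eq_neg_iff_add_eq_zero, add_comm]
    exact h4
  have h8 : t = (((Nat.card G : F) - Nat.card L)⁻¹ * -((Nat.card L : F) * Nat.card L)) • a := by
    rw [mul_smul, ← h7, inv_smul_smul₀ hne]
  rw [h8]
  congr 1
  field_simp

/-- The constant of `IsGaloisQuotient`. -/
noncomputable def cst (G : Type) [Group G] (L : Subgroup G) : ℚ :=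
  (Nat.card L : ℚ) ^ 3 + (Nat.card L : ℚ) ^ 4 / ((Nat.card G : ℚ) - Nat.card L)

omit hC hH [CharZero F] in
lemma cst_pos {G : Type} [Group G] [Fintype G] {L : Subgroup G} (hL : L ≠ ⊤) : 0 < cst G L := by
  have h1 : 0 < (Nat.card L : ℚ) := by exact_mod_cast Nat.card_pos
  have h2 : (Nat.card L : ℚ) < Nat.card G := by
    have h3 : Nat.card L ≤ Nat.card G := Nat.card_le_card_of_injective _ Subtype.val_injective
    have h4 : Nat.card L ≠ Nat.card G := fun h => hL (Subgroup.card_eq_iff_eq_top L |>.1 h)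
    exact_mod_cast lt_of_le_of_ne h3 h4
  have h3 : 0 < (Nat.card G : ℚ) - Nat.card L := by linarith
  unfold cst
  positivity

omit hC hH [CharZero F] in
lemma ext_smul_smul (q q' : F) (a : H.A X) (b : H.A Y) :
    H.ext (q • a) (q' • b) = (q * q') • H.ext a b := by
  rw [TheoryData.ext, map_smul, map_smul, smul_mul_smul_comm]
  rfl

/-- The sum over the group of the products of the translates. -/
lemma sum_translates {G : Type} [Group G] [Fintype G] {L : Subgroup G} {ρ : G → (V ⟶ V)}
    {τ : G → (W ⟶ W)} {p : V ⟶ S} {r : W ⟶ T} (h : IsGaloisOverLine H L ρ p)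
    (h' : IsGaloisOverLine H L τ r) (hL : IsDoublyTransitive L) {a : H.A S} {b : H.A T}
    (ha : H.Deg 1 a) (hb : H.Deg 1 b) :
    H.push (prodMap p r) (∑ g : G, H.push (prodMap (ρ g) (τ g))
      (H.pull (prodMap p r) (H.ext a b))) = (cst G L : F) • H.ext a b := by
  classical
  obtain ⟨h1, h2⟩ := translate h hL ha
  obtain ⟨h1', h2'⟩ := translate h' hL hb
  have h3 : ∀ g : G, H.push (prodMap p r) (H.push (prodMap (ρ g) (τ g))
      (H.pull (prodMap p r) (H.ext a b))) = (if g ∈ L then ((Nat.card L : F) ^ 2) • H.ext a b else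
      ((Nat.card L : F) ^ 4 / ((Nat.card G : F) - Nat.card L) ^ 2) • H.ext a b) := by
    intro g
    rw [pull_ext H.toTheoryData, push_ext H.toTheoryData, push_ext H.toTheoryData]
    split_ifs with hg
    · rw [h1 g hg, h1' g hg, ext_smul_smul, sq]
    · rw [h2 g hg, h2' g hg, ext_smul_smul]
      congr 1
      rw [neg_mul_neg, ← sq, div_pow, ← pow_mul]
  have hcard : (Finset.univ.filter (fun g' : G => g' ∈ L)).card = Nat.card L := by
    rw [Nat.card_eq_fintype_card, Fintype.card_subtype]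
  have hcardG : (Finset.univ.filter (fun g' : G => g' ∉ L)).card + Nat.card L = Nat.card G := by
    have h6 := Finset.card_filter_add_card_filter_not (s := (Finset.univ : Finset G))
      (p := fun g' => g' ∈ L)
    rw [hcard, Finset.card_univ, ← Nat.card_eq_fintype_card] at h6
    omega
  have h4 : Nat.card L ≠ Nat.card G := fun h => hL.1 (Subgroup.card_eq_iff_eq_top L |>.1 h)
  have hne : (Nat.card G : F) - Nat.card L ≠ 0 := by
    rw [sub_ne_zero]
    exact_mod_cast h4.symm
  have hc : ((Finset.univ.filter (fun g' : G => g' ∉ L)).card : F) =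
      (Nat.card G : F) - Nat.card L := by
    rw [← hcardG]; push_cast; ring
  rw [map_sum, Finset.sum_congr rfl fun g _ => h3 g, Finset.sum_ite, Finset.sum_const,
    Finset.sum_const, hcard, ← Nat.cast_smul_eq_nsmul F, ← Nat.cast_smul_eq_nsmul F, hc,
    smul_smul, smul_smul, ← add_smul, cst]
  congr 1
  push_cast
  field_simp

/-- The middle part of the composite through the surface. -/
lemma push_one_iso {G : Type} [Group G] {ρ : G → (V ⟶ V)} (h1 : ρ 1 = 𝟙 V)
    (hm : ∀ g h, ρ (g * h) = ρ h ≫ ρ g) (g : G) : H.push (ρ g) (1 : H.A V) = 1 := by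
  have h2 : ρ g ≫ ρ g⁻¹ = 𝟙 V ∧ ρ g⁻¹ ≫ ρ g = 𝟙 V := by
    rw [← hm, ← hm, inv_mul_cancel, mul_inv_cancel, h1]
    exact ⟨rfl, rfl⟩
  have h3 := push_pull_iso H.toTheoryData (ρ g) (ρ g⁻¹) h2.1 h2.2 1
  rwa [map_one] at h3

/-- The regular surface of a Galois quotient is regular. -/
lemma regular {𝒞 : 𝒱.Obj → Prop} (h𝒞 : ∀ S, 𝒞 S → S.dim = 1) (hX : IsGaloisQuotient H 𝒞 S T X) :
    IsRegularDominated H 𝒞 X := by
  classical
  obtain ⟨G, _, _, L, V, W, ρ, τ, p, r, Y, b, π, hL, hV', hW', hρ, hτ, hb, hπ, hq⟩ := hX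
  have hV := h𝒞 V hV'
  have hW := h𝒞 W hW'
  have hVW : (V.prod W).dim = 2 := by rw [dim_prod, hV, hW]
  have hY : Y.dim = 2 := by rw [hb.1, hVW]
  have hX2 : X.dim = 2 := by rw [← hπ.1, hY]
  have hG : (Nat.card G : F) ≠ 0 := by exact_mod_cast Nat.card_pos.ne'
  have hG' : (Nat.card G : ℚ) ≠ 0 := by exact_mod_cast Nat.card_pos.ne'
  have hq' : ∀ y : H.A (V.prod W), H.push b (H.pull π (H.push π (H.pull b y))) =
      ∑ g : G, H.push (prodMap (ρ g) (τ g)) y := hq
  refine ⟨⟨hX2, fun a ha => ?_⟩, hX2, V, W, Y, b, π, _, hV', hW', hb, hπ, hG'⟩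
  set y := H.push b (H.pull π a) with hy
  have hy1 : y ∈ H.gr (V.prod W) 1 := by
    have h1 := H.push_mem b (H.pull_mem π ha)
    rwa [← hb.1, sub_self, mul_zero, add_zero] at h1
  have h1 : H.pull b y = H.pull π a := hb.2.2.1 _ (H.pull_mem π ha)
  have h2 : (Nat.card G : F) • y = ∑ g : G, H.push (prodMap (ρ g) (τ g)) y := by
    rw [← hq' y, h1, push_pullH hπ, map_smul, map_smul, Rat.cast_natCast]
  -- the sum vanishes
  have h3 : (∑ g : G, H.push (prodMap (ρ g) (τ g))) y = 0 := by
    have h4 := H.kunneth V W 1 hy1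
    have h5 : Submodule.span F {c | ∃ (l : ℤ) (a : H.A V) (b : H.A W), a ∈ H.gr V l ∧
        b ∈ H.gr W (1 - l) ∧ c = H.pull (fst V W) a * H.pull (snd V W) b} ≤
        LinearMap.ker (∑ g : G, H.push (prodMap (ρ g) (τ g))) := by
      rw [Submodule.span_le]
      rintro c ⟨l, a, b, ha, hb, rfl⟩
      rw [SetLike.mem_coe, LinearMap.mem_ker, LinearMap.sum_apply]
      have e1 : ∀ g : G, H.push (prodMap (ρ g) (τ g)) (H.pull (fst V W) a * H.pull (snd V W) b) =
          H.ext (H.push (ρ g) a) (H.push (τ g) b) := fun g => push_ext H.toTheoryData _ _ _ _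
      rw [Finset.sum_congr rfl fun g _ => e1 g]
      by_cases hl0 : l = 0
      · subst hl0
        obtain ⟨c, rfl⟩ := hH.gr_zero V a ha
        have e2 : ∀ g : G, H.ext (H.push (ρ g) (c • (1 : H.A V))) (H.push (τ g) b) =
            (c • (1 : H.A (V.prod W))) * H.pull (snd V W) (H.push (τ g) b) := by
          intro g
          rw [map_smul, push_one_iso hρ.one hρ.mul, TheoryData.ext, map_smul, map_one]
        rw [Finset.sum_congr rfl fun g _ => e2 g, ← Finset.mul_sum, ← map_sum]
        have e3 : ∑ g : G, H.push (τ g) b = 0 := hτ.line b (by simpa using hb)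
        rw [e3, map_zero, mul_zero]
      by_cases hl1 : l = 1
      · subst hl1
        obtain ⟨c, rfl⟩ := hH.gr_zero W b (by simpa using hb)
        have e2 : ∀ g : G, H.ext (H.push (ρ g) a) (H.push (τ g) (c • (1 : H.A W))) =
            H.pull (fst V W) (H.push (ρ g) a) * (c • (1 : H.A (V.prod W))) := by
          intro g
          rw [map_smul, push_one_iso hτ.one hτ.mul, TheoryData.ext, map_smul, map_one]
        rw [Finset.sum_congr rfl fun g _ => e2 g, ← Finset.sum_mul, ← map_sum]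
        have e3 : ∑ g : G, H.push (ρ g) a = 0 := hρ.line a ha
        rw [e3, map_zero, zero_mul]
      have e4 : a = 0 ∨ b = 0 := by
        rcases lt_or_gt_of_ne hl0 with h6 | h6
        · left
          rw [H.gr_neg V _ h6] at ha
          exact (Submodule.mem_bot _).1 ha
        · right
          rw [H.gr_neg W _ (by omega)] at hb
          exact (Submodule.mem_bot _).1 hb
      refine Finset.sum_eq_zero fun g _ => ?_
      rcases e4 with rfl | rfl
      · rw [map_zero, TheoryData.ext_zero_left]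
      · rw [map_zero, TheoryData.ext_zero_right]
    exact h5 h4
  rw [LinearMap.sum_apply] at h3
  rw [h3] at h2
  have h4 : y = 0 := (smul_eq_zero_iff_right hG).1 h2
  rw [h4, map_zero] at h1
  have h5 := push_pullH hπ a
  rw [← h1, map_zero, Rat.cast_natCast] at h5
  exact (smul_eq_zero_iff_right hG).1 h5.symm

end Pool.Agent.H255R.HR
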