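import Pool.Agent.H255R.HR.Step

/-!
# Regular surfaces suffice for products of curves
-/

open CategoryTheory AlgebraicGeometry

universe u v w

namespace Pool.Agent.H255R.HR

open Pool.Agent.H914 Pool.Agent.H914.VarClass Pool.Agent.H914.VarClass.Obj Pool.Agent.W492.BB
  Pool.Agent.W550.Corr Pool.Agent.TH133 Pool.Agent.Y148.BB Pool.Agent.H255R.PC

set_option linter.unusedSectionVars false

variable {k : Type u} [Field k] {𝒱 : VarClass k} {C : TheoryData.{u, v, 0} 𝒱 ℚ}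
  {F : Type w} [Field F] {H : WeilTheoryData.{u, v, w} C F}
  {X Y Z S T V W : 𝒱.Obj}

/-- The varieties `X` and `Y` are isomorphic. -/
def Isom (X Y : 𝒱.Obj) : Prop := ∃ (f : X ⟶ Y) (g : Y ⟶ X), f ≫ g = 𝟙 X ∧ g ≫ f = 𝟙 Y

lemma Isom.refl (X : 𝒱.Obj) : Isom X X := ⟨𝟙 X, 𝟙 X, Category.id_comp _, Category.id_comp _⟩

lemma Isom.symm (h : Isom X Y) : Isom Y X := by
  obtain ⟨f, g, h1, h2⟩ := h
  exact ⟨g, f, h2, h1⟩

lemma Isom.trans (h : Isom X Y) (h' : Isom Y Z) : Isom X Z := by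
  obtain ⟨f, g, h1, h2⟩ := h
  obtain ⟨f', g', h1', h2'⟩ := h'
  refine ⟨f ≫ f', g' ≫ g, ?_, ?_⟩
  · rw [Category.assoc, ← Category.assoc f', h1', Category.id_comp, h1]
  · rw [Category.assoc, ← Category.assoc g, h2, Category.id_comp, h2']

lemma Isom.prod_left (h : Isom X Y) (Z : 𝒱.Obj) : Isom (X.prod Z) (Y.prod Z) := by
  obtain ⟨f, g, h1, h2⟩ := h
  refine ⟨prodMap f (𝟙 Z), prodMap g (𝟙 Z), ?_, ?_⟩
  · rw [prodMap_comp, h1, Category.id_comp]; exact lift_eta' ..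
  · rw [prodMap_comp, h2, Category.id_comp]; exact lift_eta' ..
where
  lift_eta' (X Z : 𝒱.Obj) : prodMap (𝟙 X) (𝟙 Z) = 𝟙 (X.prod Z) := by
    rw [prodMap, Category.comp_id, Category.comp_id, lift_eta]

lemma Isom.assoc (X Y Z : 𝒱.Obj) : Isom ((X.prod Y).prod Z) (X.prod (Y.prod Z)) :=
  ⟨aI X Y Z, aJ X Y Z, aI_aJ, aJ_aI⟩

/-- The exchange of the last two factors. -/
lemma Isom.exchange (X Y Z : 𝒱.Obj) : Isom ((X.prod Y).prod Z) ((X.prod Z).prod Y) := by
  refine ⟨Obj.lift (prodMap (fst X Y) (𝟙 Z)) (fst (X.prod Y) Z ≫ snd X Y),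
    Obj.lift (prodMap (fst X Z) (𝟙 Y)) (fst (X.prod Z) Y ≫ snd X Z), ?_, ?_⟩
  · apply prod_ext
    · apply prod_ext <;> simp [prodMap]
    · simp [prodMap]
  · apply prod_ext
    · apply prod_ext <;> simp [prodMap]
    · simp [prodMap]

lemma Good.isom {𝓜 𝓝 : Family H} {R : ℕ} [IsChowProj C] [IsWeilProj H] (h : Isom X Y)
    (hX : Good 𝓜 𝓝 R X) : Good 𝓜 𝓝 R Y := by
  obtain ⟨f, g, h1, h2⟩ := h
  intro r hr t ht
  have h3 := 𝓝.pull g (hX r hr _ (𝓜.pull f ht))
  have h4 : H.pull g (H.pull f t) = t := by rw [← H.pull_comp, h2, H.pull_id]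
  rwa [show H.up g (H.up f t) = t from h4] at h3

/-- The product of `A` with the varieties in the list `l`. -/
noncomputable def app (A : 𝒱.Obj) : List 𝒱.Obj → 𝒱.Obj
  | [] => A
  | S :: l => (app A l).prod S

lemma app_swap (A X : 𝒱.Obj) (l : List 𝒱.Obj) : Isom ((app A l).prod X) (app (A.prod X) l) := by
  induction l with
  | nil => exact Isom.refl _
  | cons S l ih => exact (Isom.exchange _ _ _).trans (ih.prod_left S)

lemma IsProdOf.mono {U : 𝒱.Obj} {Q Q' : 𝒱.Obj → Prop} (h : ∀ X, Q X → Q' X) {n : ℕ} {W : 𝒱.Obj}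
    (hW : IsProdOf U Q n W) : IsProdOf U Q' n W := by
  induction hW with
  | base => exact .base
  | prod n W X _ hX ih => exact .prod n W X ih (h X hX)

variable [hC : IsChowProj C] [CharZero F] [hH : IsWeilProj H]

include hC hH

/-- The odd cohomology of a product of regular surfaces vanishes. -/
lemma odd_vanish {U : 𝒱.Obj} (hU : OddVanish H U) {m : ℕ} {A : 𝒱.Obj}
    (hA : IsProdOf U (IsRegularSurface H) m A) : ∀ (i : ℤ), Odd i → ∀ a ∈ H.gr A i, a = 0 := by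
  induction hA with
  | base => exact fun i hi a ha => hU i a hi ha
  | prod n W X hW hX ih =>
    have hX1 : ∀ i : ℤ, Odd i → ∀ b ∈ H.gr X i, b = 0 := by
      intro i hi b hb
      by_cases h0 : i < 0
      · rw [H.gr_neg X _ h0] at hb
        exact (Submodule.mem_bot _).1 hb
      by_cases h4 : 4 < i
      · rw [gr_top H (by rw [hX.1]; push_cast; omega)] at hb
        exact (Submodule.mem_bot _).1 hb
      by_cases h1 : i = 1
      · subst h1
        exact hX.2 b hb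
      have h3 : i = 3 := by
        obtain ⟨j, hj⟩ := hi
        omega
      subst h3
      apply H.nondeg
      have h5 : H.tr X ∘ₗ LinearMap.mulLeft F b = 0 := by
        apply ext_gr H
        intro j c hc
        rw [LinearMap.comp_apply, LinearMap.mulLeft_apply, LinearMap.zero_apply]
        by_cases hj : j = 1
        · subst hj
          rw [hX.2 c hc, mul_zero, map_zero]
        · exact tr_zero H (H.mul_mem hb hc) (by rw [hX.1]; push_cast; omega)
      intro c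
      exact LinearMap.congr_fun h5 c
    intro i hi a ha
    have h1 := H.kunneth W X i ha
    have h2 : Submodule.span F {c | ∃ (l : ℤ) (a : H.A W) (b : H.A X), a ∈ H.gr W l ∧
        b ∈ H.gr X (i - l) ∧ c = H.pull (fst W X) a * H.pull (snd W X) b} ≤ ⊥ := by
      rw [Submodule.span_le]
      rintro c ⟨l, a, b, ha, hb, rfl⟩
      rw [SetLike.mem_coe, Submodule.mem_bot]
      rcases Int.even_or_odd l with h3 | h3
      · rw [hX1 _ (hi.sub_even h3) b hb, map_zero, mul_zero]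
      · rw [ih l h3 a ha, map_zero, zero_mul]
    exact (Submodule.mem_bot F).1 (h2 h1)

/-- One additional curve. -/
lemma odd_step {U : 𝒱.Obj} (hU : OddVanish H U) {𝓜 𝓝 : Family H} {R m : ℕ} {A : 𝒱.Obj}
    (hA : IsProdOf U (IsRegularSurface H) m A) (hS : S.dim = 1) (h : Good 𝓜 𝓝 R A) : Good 𝓜 𝓝 R (A.prod S) := by
  obtain ⟨o, ho, hd⟩ := exists_hd_one (C := C) S
  have ho1 : C.Deg 1 o := gr_congr (by rw [hS]; norm_num) ho
  intro r hr t ht
  refine of_e1_mem (isCoord_prod (Z := A) hS) ho1 h hr ht ?_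
  have h1 := H.kunneth A S _ (𝓜.deg ht)
  have h2 : Submodule.span F {c | ∃ (l : ℤ) (a : H.A A) (b : H.A S), a ∈ H.gr A l ∧
      b ∈ H.gr S (2 * (r : ℤ) - l) ∧ c = H.pull (fst A S) a * H.pull (snd A S) b} ≤
      LinearMap.ker (e1 (fst A S) (snd A S) o) := by
    rw [Submodule.span_le]
    rintro c ⟨l, a, b, ha, hb, rfl⟩
    rw [SetLike.mem_coe, LinearMap.mem_ker]
    have h3 := e1_mul (H := H) (isCoord_prod (Z := A) hS) ho1 hd a 1 hb
    rw [map_one, mul_one] at h3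
    rw [h3]
    split_ifs with h4
    · have h5 : Odd l := by
        rw [Int.odd_iff]
        omega
      rw [odd_vanish hU hA l h5 a ha, map_zero, zero_mul]
    · rfl
  have h3 : e1 (fst A S) (snd A S) o t = 0 := h2 h1
  rw [h3]
  exact 𝓝.zero _ _

/-- The main theorem: products of regular surfaces and products of curves. -/
theorem main_app {U : 𝒱.Obj} {𝒞 : 𝒱.Obj → Prop} {𝓜 𝓝 : Family H} {R M : ℕ}
    (hG : HasGaloisQuotients H 𝒞)
    (h : ∀ m ≤ M, ∀ A, IsProdOf U (IsRegularDominated H 𝒞) m A → Good 𝓜 𝓝 R A ∧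
      ∀ S : 𝒱.Obj, 𝒞 S → Good 𝓜 𝓝 R (A.prod S)) :
    ∀ (n : ℕ) (l : List 𝒱.Obj) (m : ℕ) (A : 𝒱.Obj), l.length = n → (∀ S ∈ l, 𝒞 S) →
      IsProdOf U (IsRegularDominated H 𝒞) m A → 2 * m + n ≤ 2 * M + 1 →
      Good 𝓜 𝓝 R (app A l) := by
  intro n
  induction n using Nat.strong_induction_on with
  | _ n ih =>
    intro l m A hl hc hA hn
    match l, hl, hc with
    | [], hl, _ => exact (h m (by simp at hl; omega) A hA).1
    | [S], hl, hc => exact (h m (by simp at hl; omega) A hA).2 S (hc S (by simp))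
    | T :: S :: l, hl, hc =>
      have hS' : 𝒞 S := hc S (by simp)
      have hT' : 𝒞 T := hc T (by simp)
      have hS : S.dim = 1 := hG.1 S hS'
      have hT : T.dim = 1 := hG.1 T hT'
      obtain ⟨X, hX⟩ := hG.2 S T hS' hT'
      have hlen : n = l.length + 2 := by rw [← hl]; simp
      have h1 : Good 𝓜 𝓝 R ((app A l).prod S) :=
        ih (l.length + 1) (by omega) (S :: l) m A (by simp)
          (fun U hU => hc U (by simp at hU ⊢; tauto)) hA (by omega)
      have h2 : Good 𝓜 𝓝 R ((app A l).prod T) :=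
        ih (l.length + 1) (by omega) (T :: l) m A (by simp)
          (fun U hU => hc U (by simp at hU ⊢; tauto)) hA (by omega)
      have h3 : Good 𝓜 𝓝 R ((app A l).prod X) :=
        Good.isom (app_swap A X l).symm (ih l.length (by omega) l (m + 1) (A.prod X) rfl
          (fun U hU => hc U (by simp at hU ⊢; tauto)) (.prod m A X hA (regular hG.1 hX))
          (by omega))
      exact Good.isom (Isom.assoc _ _ _).symm (step hS hT hX h1 h2 h3)

omit hC hH [CharZero F] in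
lemma exists_app {U : 𝒱.Obj} {𝒞 : 𝒱.Obj → Prop} {n : ℕ} {W : 𝒱.Obj} (hW : IsProdOf U 𝒞 n W) :
    ∃ l : List 𝒱.Obj, l.length = n ∧ (∀ S ∈ l, 𝒞 S) ∧ W = app U l := by
  induction hW with
  | base => exact ⟨[], rfl, by simp, rfl⟩
  | prod n W X _ hX ih =>
    obtain ⟨l, hl, hc, rfl⟩ := ih
    refine ⟨X :: l, by simp [hl], ?_, rfl⟩
    intro S hS
    rcases List.mem_cons.1 hS with rfl | hS
    · exact hX
    · exact hc S hS

/-- Products of curves. -/
theorem main {U : 𝒱.Obj} {𝒞 : 𝒱.Obj → Prop} {𝓜 𝓝 : Family H} {R M : ℕ}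
    (hG : HasGaloisQuotients H 𝒞)
    (h : ∀ m ≤ M, ∀ A, IsProdOf U (IsRegularDominated H 𝒞) m A → Good 𝓜 𝓝 R A ∧
      ∀ S : 𝒱.Obj, 𝒞 S → Good 𝓜 𝓝 R (A.prod S)) :
    ∀ n ≤ 2 * M + 1, ∀ W : 𝒱.Obj, IsProdOf U 𝒞 n W → Good 𝓜 𝓝 R W := by
  intro n hn W hW
  obtain ⟨l, hl, hc, rfl⟩ := exists_app hW
  exact main_app hG h n l 0 U hl hc .base (by omega)

/-- Products of curves, if the odd cohomology of `U` vanishes. -/
theorem main_odd {U : 𝒱.Obj} {𝒞 : 𝒱.Obj → Prop} (hU : OddVanish H U) {𝓜 𝓝 : Family H} {R M : ℕ}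
    (hG : HasGaloisQuotients H 𝒞)
    (h : ∀ m ≤ M, ∀ A, IsProdOf U (IsRegularDominated H 𝒞) m A → Good 𝓜 𝓝 R A) :
    ∀ n ≤ 2 * M + 1, ∀ W : 𝒱.Obj, IsProdOf U 𝒞 n W → Good 𝓜 𝓝 R W :=
  main hG fun m hm A hA => ⟨h m hm A hA, fun S hS =>
    odd_step hU (hA.mono fun _ hX => hX.1) (hG.1 S hS) (h m hm A hA)⟩

/-- Varieties dominated by products of curves. -/
lemma Good.dominated {𝓜 𝓝 : Family H} {R : ℕ} (h : IsDominatedBy C W X)
    (hW : Good 𝓜 𝓝 R W) : Good 𝓜 𝓝 R X := by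
  obtain ⟨f, e, z, hdim, hz, h1⟩ := h
  intro r hr t ht
  have h2 := 𝓝.mul (hW r hr _ (𝓜.pull f ht)) hz
  have h3 := 𝓝.push f (s := r) (by rw [hdim]; omega) h2
  have h4 : H.push f (H.cl z * H.pull f t) = t := by
    rw [H.proj_right, ← H.cl_push, show C.push f z = 1 from h1, map_one, one_mul]
  rwa [show H.down f (H.mul (H.cl z) (H.up f t)) = t from h4] at h3

end Pool.Agent.H255R.HR
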