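import Pool.Agent.H255R.HR.Galois

/-!
# Two curves replaced by a regular surface
-/

open CategoryTheory AlgebraicGeometry

universe u v w

namespace Pool.Agent.H255R.HR

open Pool.Agent.H914 Pool.Agent.H914.VarClass Pool.Agent.H914.VarClass.Obj Pool.Agent.W492.BB
  Pool.Agent.W550.Corr Pool.Agent.TH133 Pool.Agent.Y148.BB Pool.Agent.H255R.PC

set_option linter.unusedSectionVars false

variable {k : Type u} [Field k] {𝒱 : VarClass k} {C : TheoryData.{u, v, 0} 𝒱 ℚ}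
  {F : Type w} [Field F] {H : WeilTheoryData.{u, v, w} C F}
  {X Y Z S T V W : 𝒱.Obj}

variable [hC : IsChowProj C] [CharZero F] [hH : IsWeilProj H]

/-- The classes `a × b × c`, `a ∈ H^*(Z)`, `b ∈ H^l(S)`, `c ∈ H^{l'}(T)`, with `(l, l')` as in `P`. -/
noncomputable def triples (H : WeilTheoryData.{u, v, w} C F) (Z S T : 𝒱.Obj) (P : ℤ → ℤ → Prop) :
    Submodule F (H.A (Z.prod (S.prod T))) :=
  Submodule.span F {x | ∃ (l l' : ℤ) (a : H.A Z) (b : H.A S) (c : H.A T), P l l' ∧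
    b ∈ H.gr S l ∧ c ∈ H.gr T l' ∧ x = H.ext a (H.ext b c)}

include hC hH

lemma mem_triples (t : H.A (Z.prod (S.prod T))) : t ∈ triples H Z S T (fun _ _ => True) := by
  have h1 : ⨆ i, H.gr (Z.prod (S.prod T)) i ≤ triples H Z S T (fun _ _ => True) := by
    refine iSup_le fun m => (H.kunneth Z (S.prod T) m).trans ?_
    rw [Submodule.span_le]
    rintro x ⟨l, a, y, -, hy, rfl⟩
    have h2 := H.kunneth S T _ hy
    have h3 : Submodule.span F {c | ∃ (l' : ℤ) (a : H.A S) (b : H.A T), a ∈ H.gr S l' ∧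
        b ∈ H.gr T (m - l - l') ∧ c = H.pull (fst S T) a * H.pull (snd S T) b} ≤
        (triples H Z S T (fun _ _ => True)).comap (LinearMap.mulLeft F (H.pull (fst _ _) a) ∘ₗ
          (H.pull (snd Z (S.prod T))).toLinearMap) := by
      rw [Submodule.span_le]
      rintro y ⟨l', b, c, hb, hc, rfl⟩
      exact Submodule.subset_span ⟨l', m - l - l', a, b, c, trivial, hb, hc, rfl⟩
    exact h3 h2
  exact h1 (span_gr H _ t)

lemma e1_e1_mem (hS : S.dim = 1) (hT : T.dim = 1) {o : C.A S} {o' : C.A T} (ho : C.Deg 1 o)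
    (hd : HasDegree C o 1) (ho' : C.Deg 1 o') (hd' : HasDegree C o' 1)
    (t : H.A (Z.prod (S.prod T))) :
    e1 (prodMap (𝟙 Z) (snd S T)) (snd Z (S.prod T) ≫ fst S T) o
      (e1 (prodMap (𝟙 Z) (fst S T)) (snd Z (S.prod T) ≫ snd S T) o' t) ∈
        triples H Z S T (fun l l' => l = 1 ∧ l' = 1) := by
  have h1 := mem_triples t
  have h2 : triples H Z S T (fun _ _ => True) ≤
      (triples H Z S T (fun l l' => l = 1 ∧ l' = 1)).comap
        (e1 (prodMap (𝟙 Z) (snd S T)) (snd Z (S.prod T) ≫ fst S T) o ∘ₗ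
          e1 (prodMap (𝟙 Z) (fst S T)) (snd Z (S.prod T) ≫ snd S T) o') := by
    rw [triples, Submodule.span_le]
    rintro x ⟨l, l', a, b, c, -, hb, hc, rfl⟩
    rw [SetLike.mem_coe, Submodule.mem_comap, LinearMap.comp_apply]
    have f1 : H.ext a (H.ext b c) = H.pull (prodMap (𝟙 Z) (fst S T))
        (H.pull (fst Z S) a * H.pull (snd Z S) b) *
        H.pull (snd Z (S.prod T) ≫ snd S T) c * H.pull (prodMap (𝟙 Z) (fst S T)) 1 := by
      rw [map_one, mul_one, map_mul, ← H.pull_comp, ← H.pull_comp, prodMap_fst, prodMap_snd,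
        Category.comp_id, TheoryData.ext, TheoryData.ext, map_mul, ← H.pull_comp, ← H.pull_comp,
        mul_assoc]
    have f2 : H.ext a (H.ext b c) = H.pull (prodMap (𝟙 Z) (snd S T)) (H.pull (fst Z T) a) *
        H.pull (snd Z (S.prod T) ≫ fst S T) b *
        H.pull (prodMap (𝟙 Z) (snd S T)) (H.pull (snd Z T) c) := by
      rw [← H.pull_comp, ← H.pull_comp, prodMap_fst, prodMap_snd,
        Category.comp_id, TheoryData.ext, TheoryData.ext, map_mul, ← H.pull_comp, ← H.pull_comp,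
        mul_assoc]
    have g1 := e1_mul (H := H) (isCoord_fst (Z := Z) (S := S) hT) ho' hd'
      (H.pull (fst Z S) a * H.pull (snd Z S) b) 1 hc
    rw [← f1] at g1
    have g2 := e1_mul (H := H) (isCoord_snd (Z := Z) (T := T) hS) ho hd
      (H.pull (fst Z T) a) (H.pull (snd Z T) c) hb
    rw [← f2] at g2
    rw [g1]
    split_ifs with h3
    · rw [g2]
      split_ifs with h4
      · exact Submodule.subset_span ⟨l, l', a, b, c, ⟨h4, h3⟩, hb, hc, rfl⟩
      · exact Submodule.zero_mem _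
    · rw [map_zero]
      exact Submodule.zero_mem _
  exact h2 h1

/-- The composite `id_Z × (f_* g^*)`. -/
lemma through {𝒞 : 𝒱.Obj → Prop} (hX : IsGaloisQuotient H 𝒞 S T X) : ∃ (c : ℚ) (Y : 𝒱.Obj) (f : Y ⟶ S.prod T)
    (π : Y ⟶ X), c ≠ 0 ∧ Y.dim = X.dim ∧ Y.dim = (S.prod T).dim ∧
    ∀ (Z : 𝒱.Obj) (t : H.A (Z.prod (S.prod T))), t ∈ triples H Z S T (fun l l' => l = 1 ∧ l' = 1) →
      H.push (prodMap (𝟙 Z) f) (H.pull (prodMap (𝟙 Z) π) (H.push (prodMap (𝟙 Z) π)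
        (H.pull (prodMap (𝟙 Z) f) t))) = (c : F) • t := by
  classical
  obtain ⟨G, _, _, L, V, W, ρ, τ, p, r, Y, b, π, hL, hV, hW, hρ, hτ, hb, hπ, hq⟩ := hX
  refine ⟨cst G L, Y, b ≫ prodMap p r, π, (cst_pos hL.1).ne', hπ.1, ?_, ?_⟩
  · rw [hb.1, dim_prod, dim_prod, hρ.deg.1, hτ.deg.1]
  intro Z t ht
  have h2 : triples H Z S T (fun l l' => l = 1 ∧ l' = 1) ≤
      LinearMap.eqLocus (H.push (prodMap (𝟙 Z) (b ≫ prodMap p r)) ∘ₗ
        (H.pull (prodMap (𝟙 Z) π)).toLinearMap ∘ₗ H.push (prodMap (𝟙 Z) π) ∘ₗ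
        (H.pull (prodMap (𝟙 Z) (b ≫ prodMap p r))).toLinearMap)
        ((cst G L : F) • LinearMap.id) := by
    rw [triples, Submodule.span_le]
    rintro x ⟨l, l', a, x, y, ⟨rfl, rfl⟩, hx, hy, rfl⟩
    rw [SetLike.mem_coe, LinearMap.mem_eqLocus]
    simp only [LinearMap.comp_apply, LinearMap.smul_apply, LinearMap.id_apply,
      AlgHom.toLinearMap_apply]
    rw [pull_ext H.toTheoryData, push_ext H.toTheoryData, pull_ext H.toTheoryData,
      push_ext H.toTheoryData, H.pull_id, H.push_id, H.pull_id, H.push_id, H.pull_comp,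
      H.push_comp]
    have hq' := hq (H.pull (prodMap p r) (H.ext x y))
    have hq2 : H.push b (H.pull π (H.push π (H.pull b (H.pull (prodMap p r) (H.ext x y))))) =
      ∑ g : G, H.push (prodMap (ρ g) (τ g)) (H.pull (prodMap p r) (H.ext x y)) := hq'
    rw [hq2, sum_translates hρ hτ hL hx hy]
    have := ext_smul_smul (H := H) 1 (cst G L : F) a (H.ext x y)
    rwa [one_smul, one_mul] at this
  exact h2 ht

/-- The step: two curves are replaced by a regular surface. -/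
lemma step {𝓜 𝓝 : Family H} {R : ℕ} {𝒞 : 𝒱.Obj → Prop} (hS : S.dim = 1) (hT : T.dim = 1)
    (hX : IsGaloisQuotient H 𝒞 S T X) (h1 : Good 𝓜 𝓝 R (Z.prod S)) (h2 : Good 𝓜 𝓝 R (Z.prod T))
    (h3 : Good 𝓜 𝓝 R (Z.prod X)) : Good 𝓜 𝓝 R (Z.prod (S.prod T)) := by
  obtain ⟨o, ho, hd⟩ := exists_hd_one (C := C) S
  obtain ⟨o', ho', hd'⟩ := exists_hd_one (C := C) T
  have ho1 : C.Deg 1 o := gr_congr (by rw [hS]; norm_num) ho
  have ho1' : C.Deg 1 o' := gr_congr (by rw [hT]; norm_num) ho'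
  intro r hr t ht
  refine of_e1_mem (isCoord_fst (Z := Z) (S := S) hT) ho1' h1 hr ht ?_
  have ht1 := e1_mem (isCoord_fst (Z := Z) (S := S) hT) ho1' ht
  refine of_e1_mem (isCoord_snd (Z := Z) (T := T) hS) ho1 h2 hr ht1 ?_
  have ht2 := e1_mem (isCoord_snd (Z := Z) (T := T) hS) ho1 ht1
  have ht3 := e1_e1_mem hS hT ho1 hd ho1' hd' t
  set t2 := e1 (prodMap (𝟙 Z) (snd S T)) (snd Z (S.prod T) ≫ fst S T) o
    (e1 (prodMap (𝟙 Z) (fst S T)) (snd Z (S.prod T) ≫ snd S T) o' t) with ht2d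
  obtain ⟨c, Y, f, π, hc, hYX, hYS, h4⟩ := through hX
  have h5 := h4 Z t2 ht3
  have h6 : 𝓜.Mem (Z.prod X) r (H.push (prodMap (𝟙 Z) π) (H.pull (prodMap (𝟙 Z) f) t2)) :=
    𝓜.push _ (by simp only [dim_prod]; omega) (𝓜.pull _ ht2)
  have h7 : 𝓝.Mem (Z.prod (S.prod T)) r (H.push (prodMap (𝟙 Z) f) (H.pull (prodMap (𝟙 Z) π)
      (H.push (prodMap (𝟙 Z) π) (H.pull (prodMap (𝟙 Z) f) t2)))) :=
    𝓝.push _ (by simp only [dim_prod] at *; omega) (𝓝.pull _ (h3 r hr _ h6))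
  rw [h5] at h7
  have h8 := 𝓝.smul c⁻¹ h7
  rwa [smul_smul, ← Rat.cast_mul, inv_mul_cancel₀ hc, Rat.cast_one, one_smul] at h8

end Pool.Agent.H255R.HR
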